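import Mathlib

/-!
# Only the identity of the geometric fundamental group of a curve is fixed by the Galois group

Let `K` be a finite field, a number field or a global function field, `X` a smooth geometrically connected
curve over `K` with a rational point `x`, `G = π₁(X)`, `H = π₁(X_K̄)` and `Γ = s_x(Gal_K)`, a subgroup of `G`.
The theorem: an element `γ` of `H` with `σ γ σ⁻¹ = γ` for all `σ` in `Γ` is the identity.

It is proved for every topological group `G` with subgroups `H` and `Γ` such that `H` is profinite (the open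
subgroups of `H` which are normal in `G` have trivial intersection) and such that every open subgroup `U`
of `H` which is stable under `Γ` satisfies the following two conditions. Such a `U` belongs to a connected
finite étale covering `Y` of `X` over `K` with a rational point above `x`, with `U = π₁(Y_K̄)`, and the
characters `U → ℂˣ` with open kernel are the elements of `H¹(Y_K̄, ℚ/ℤ)`.

* `Divisible`: `H¹(Y_K̄, ℚ/ℤ)` is divisible. (For the part prime to the characteristic `p`: `H²(Y_K̄, ℤ_ℓ)` is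
  torsion free. For the `p`-part: `H²(Y_K̄, ℤ/p) = 0`.)
* `FiniteCoinvariants`: the coinvariants of the Galois group in `H¹(Y_K̄, ℚ/ℤ)` have finite exponent.
  (For the part prime to `p`: they are the dual of the invariants in the Tate module of the generalized
  Jacobian `J` of `Y`, which are zero because `J(K)` has a finite torsion subgroup (Mordell-Weil, Lang-Néron;
  or Weil). The `p`-part if `Y` is affine: `H¹(Y_K̄, ℤ/p)` is the cokernel of `F - 1` on `O(Y) ⊗ K^s`, and the
  coinvariants of `K^s` are zero, as every `l ∈ L`, `L/K` finite Galois, has trace `0` in `K` from an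
  extension of `L` of degree divisible by `p`; `H²(Y_K̄, ℤ/p) = 0` gives the same for `ℤ/p^n`. The `p`-part if `Y` is
  proper: the étale Tate module at `p` has no invariants, by the weights of a Frobenius element at a
  place at which the reduction is good and has the same `p`-rank.)

So Q1 has the answer that the identity is the only fixed element, for the three types of fields, also if `X`
is isotrivial.

The proof. Let `γ ≠ 1` be fixed, `V` an open subgroup of `H`, normal in `G`, which does not contain `γ`, and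
let `U` be the subgroup generated by `V` and `γ`. It is open and stable under `Γ`. The quotient `U/V` is
cyclic, generated by the class of `γ`, so there is a character `f` of `U`, trivial on `V`, with `f(γ) ≠ 1`.
By the first condition `f = g ^ m` for the exponent `m` of the second condition, and `g ^ m` is a product of
characters `h^σ h⁻¹`, which are `1` on `γ`, since `γ` is fixed. A contradiction.
-/

set_option autoImplicit false

namespace Pool.Agent.Results.MP_a94a03_ag.OnlyIdentityFixed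

section

variable {G : Type} [Group G] [TopologicalSpace G]

/-- `U` is a subgroup of finite index of `H`, open in `H`. -/
def OpenIn (U H : Subgroup G) : Prop :=
  U ≤ H ∧ IsOpen ((U.subgroupOf H : Subgroup H) : Set H) ∧ U.relIndex H ≠ 0

/-- `U` is stable under conjugation by the elements of `Γ`. -/
def Stable (Γ U : Subgroup G) : Prop := ∀ σ ∈ Γ, ∀ u ∈ U, σ * u * σ⁻¹ ∈ U

/-- `f' = f^σ` is the character `u ↦ f (σ u σ⁻¹)` of `U`. -/
def IsTranslate {U : Subgroup G} (σ : G) (f f' : U →* ℂˣ) : Prop :=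
  ∀ u u' : U, (u' : G) = σ * (u : G) * σ⁻¹ → f' u = f u'

/-- The group of the characters of `U` with open kernel is divisible. -/
def Divisible (U : Subgroup G) : Prop :=
  ∀ f : U →* ℂˣ, IsOpen (f.ker : Set U) → ∀ m : ℕ, 0 < m →
    ∃ g : U →* ℂˣ, IsOpen (g.ker : Set U) ∧ g ^ m = f

/-- The coinvariants of `Γ` in the group of the characters of `U` with open kernel have finite
exponent: for some `m ≥ 1` the `m`-th power of every character with open kernel is in the group which is
generated by the `g^σ g⁻¹`, `σ` in `Γ`, `g` a character with open kernel. -/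
def FiniteCoinvariants (Γ U : Subgroup G) : Prop :=
  ∃ m : ℕ, 0 < m ∧ ∀ f : U →* ℂˣ, IsOpen (f.ker : Set U) →
    f ^ m ∈ Subgroup.closure {h : U →* ℂˣ | ∃ σ ∈ Γ, ∃ g g' : U →* ℂˣ,
      IsOpen (g.ker : Set U) ∧ IsTranslate σ g g' ∧ h = g' * g⁻¹}

/-- A fixed element is killed by all characters. -/
theorem char_eq_one {Γ U : Subgroup G} (hD : Divisible U) (hC : FiniteCoinvariants Γ U) (γ : U)
    (hγ : ∀ σ ∈ Γ, σ * (γ : G) * σ⁻¹ = γ) (f : U →* ℂˣ) (hf : IsOpen (f.ker : Set U)) : f γ = 1 := by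
  obtain ⟨m, hm, h⟩ := hC
  obtain ⟨g, hg, hgf⟩ := hD f hf m hm
  have h1 := h g hg
  rw [hgf] at h1
  have h2 : Subgroup.closure {h : U →* ℂˣ | ∃ σ ∈ Γ, ∃ g g' : U →* ℂˣ,
      IsOpen (g.ker : Set U) ∧ IsTranslate σ g g' ∧ h = g' * g⁻¹} ≤
      (MonoidHom.eval γ : (U →* ℂˣ) →* ℂˣ).ker := by
    rw [Subgroup.closure_le]
    rintro _ ⟨σ, hσ, g, g', -, ht, rfl⟩
    have h3 : g' γ = g γ := ht γ γ (hγ σ hσ).symm
    change (g' * g⁻¹) γ = 1
    rw [MonoidHom.mul_apply, MonoidHom.inv_apply, h3, mul_inv_cancel]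
  exact h2 h1

end

/-- A nontrivial element of a finite cyclic quotient is detected by a character. -/
theorem exists_char {U : Type} [Group U] (V : Subgroup U) [V.Normal] (hV : V.index ≠ 0) (γ : U)
    (hgen : ∀ u : U, ∃ k : ℤ, u * (γ ^ k)⁻¹ ∈ V) (hγ : γ ∉ V) :
    ∃ f : U →* ℂˣ, V ≤ f.ker ∧ f γ ≠ 1 := by
  have : V.FiniteIndex := ⟨hV⟩
  have hfin : Finite (U ⧸ V) := inferInstance
  have hcyc : IsCyclic (U ⧸ V) := by
    refine ⟨⟨(γ : U ⧸ V), fun x => ?_⟩⟩
    obtain ⟨u, rfl⟩ := QuotientGroup.mk_surjective x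
    obtain ⟨k, hk⟩ := hgen u
    refine ⟨k, ?_⟩
    change ((γ : U ⧸ V)) ^ k = (u : U ⧸ V)
    rw [← QuotientGroup.mk_zpow, eq_comm, ← mul_inv_eq_one, ← QuotientGroup.mk_inv,
      ← QuotientGroup.mk_mul]
    exact (QuotientGroup.eq_one_iff _).2 hk
  letI : CommGroup (U ⧸ V) := IsCyclic.commGroup
  have hne : ((γ : U) : U ⧸ V) ≠ 1 := fun h => hγ ((QuotientGroup.eq_one_iff _).1 h)
  have : NeZero (Monoid.exponent (U ⧸ V)) := ⟨Monoid.exponent_ne_zero_of_finite⟩
  obtain ⟨φ, hφ⟩ := CommGroup.exists_apply_ne_one_of_hasEnoughRootsOfUnity (U ⧸ V) ℂ hne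
  refine ⟨φ.comp (QuotientGroup.mk' V), fun v hv => ?_, hφ⟩
  rw [MonoidHom.mem_ker, MonoidHom.comp_apply]
  have : QuotientGroup.mk' V v = 1 := (QuotientGroup.eq_one_iff _).2 hv
  rw [this, map_one]

theorem result (G : Type) [Group G] [TopologicalSpace G] [IsTopologicalGroup G]
    (H Γ : Subgroup G)
    -- `H` is a profinite group: its open subgroups which are normal in `G` have trivial intersection
    (hprof : ∀ γ ∈ H, γ ≠ 1 → ∃ V : Subgroup G, V.Normal ∧ OpenIn V H ∧ γ ∉ V)
    -- the first cohomology of the coverings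
    (hD : ∀ U : Subgroup G, OpenIn U H → Stable Γ U → Divisible U)
    (hC : ∀ U : Subgroup G, OpenIn U H → Stable Γ U → FiniteCoinvariants Γ U) :
    ∀ γ ∈ H, (∀ σ ∈ Γ, σ * γ * σ⁻¹ = γ) → γ = 1 := by
  intro γ hγH hγ
  by_contra hne
  obtain ⟨V, hVn, hVo, hγV⟩ := hprof γ hγH hne
  let U : Subgroup G := V ⊔ Subgroup.zpowers γ
  have hVU : V ≤ U := le_sup_left
  have hγU : γ ∈ U := (le_sup_right : Subgroup.zpowers γ ≤ U) (Subgroup.mem_zpowers γ)
  have hUH : U ≤ H := sup_le hVo.1 (by rwa [Subgroup.zpowers_le])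
  have hmem : ∀ u ∈ U, ∃ v ∈ V, ∃ k : ℤ, v * γ ^ k = u := by
    intro u hu
    obtain ⟨v, hv, z, hz, rfl⟩ := Subgroup.mem_sup_of_normal_left.1 hu
    obtain ⟨k, rfl⟩ := Subgroup.mem_zpowers_iff.1 hz
    exact ⟨v, hv, k, rfl⟩
  have hUo : OpenIn U H := by
    refine ⟨hUH, ?_, ?_⟩
    · exact Subgroup.isOpen_mono (H₁ := V.subgroupOf H) (Subgroup.comap_mono hVU) hVo.2.1
    · exact fun h => hVo.2.2 (Subgroup.relIndex_eq_zero_of_le_left hVU h)
  have hUs : Stable Γ U := by
    intro σ hσ u hu
    obtain ⟨v, hv, k, rfl⟩ := hmem u hu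
    have h1 : σ * (v * γ ^ k) * σ⁻¹ = (σ * v * σ⁻¹) * (σ * γ * σ⁻¹) ^ k := by
      rw [conj_zpow]; group
    rw [h1, hγ σ hσ]
    exact U.mul_mem (hVU (hVn.conj_mem v hv σ)) (U.zpow_mem hγU k)
  have hVUn : (V.subgroupOf U).Normal := hVn.subgroupOf U
  have hidx : (V.subgroupOf U).index ≠ 0 := by
    intro h
    have h1 : V.relIndex U * U.relIndex H = V.relIndex H := Subgroup.relIndex_mul_relIndex _ _ _ hVU hUH
    rw [show V.relIndex U = 0 from h, zero_mul] at h1
    exact hVo.2.2 h1.symm
  obtain ⟨f, hf1, hf2⟩ := exists_char (V.subgroupOf U) hidx ⟨γ, hγU⟩ (fun u => by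
    obtain ⟨v, hv, k, h⟩ := hmem u u.2
    refine ⟨k, ?_⟩
    rw [Subgroup.mem_subgroupOf]
    change (u : G) * (γ ^ k)⁻¹ ∈ V
    rw [← h, mul_inv_cancel_right]
    exact hv) (fun h => hγV (Subgroup.mem_subgroupOf.1 h))
  refine hf2 (char_eq_one (hD U hUo hUs) (hC U hUo hUs) ⟨γ, hγU⟩ hγ f ?_)
  refine Subgroup.isOpen_mono hf1 ?_
  have h3 : IsOpen ((V.subgroupOf H : Subgroup H) : Set H) := hVo.2.1
  obtain ⟨W, hW, hWe⟩ := isOpen_induced_iff.1 h3
  refine isOpen_induced_iff.2 ⟨W, hW, ?_⟩
  ext u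
  have h4 := Set.ext_iff.1 hWe ⟨u, hUH u.2⟩
  exact h4

end Pool.Agent.Results.MP_a94a03_ag.OnlyIdentityFixed
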